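import Pool.Agent.Helper46_MT.Final
import Pool.Agent.MTF.StmtsB

/-! MTF, module GSP: if all the groups contain the symplectic Lie algebra, the Mumford-Tate group is
the group of the similitudes. -/

set_option autoImplicit false
set_option linter.unusedSectionVars false

namespace Pool.Agent.MTF.H42

open MvPolynomial Matrix Module Pool.Agent.Helper78_MT Pool.Agent.Helper3_MT
  Pool.Agent.Helper46_MT Pool.Agent.MT100

universe u

variable {n : Type*} [Fintype n] [DecidableEq n]

theorem Xom_sk {F : Matrix n n ℂ} (hF : Fᵀ = -F) (v : n → ℂ) :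
    (Xom F v)ᵀ * F + F * Xom F v = 0 := by
  unfold Xom
  rw [transpose_vecMulVec, vecMulVec_mul, mul_vecMulVec]
  have h1 : F *ᵥ v = -(v ᵥ* F) := by
    have h2 : F *ᵥ v = v ᵥ* Fᵀ := (vecMul_transpose F v).symm
    rw [h2, hF, vecMul_neg]
  rw [h1, neg_vecMulVec, add_neg_cancel]

/-- **GSP** -/
theorem gsp : GspStmt.{u} := by
  intro d _ _ w E V hw hV hall K _ _
  by_cases hn : Nonempty d
  · obtain ⟨π, hπ, h1, h2, h3⟩ := proj_of hV
    have hE := det_ne hV
    have hE0 : E ≠ 0 := by
      rintro rfl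
      rw [det_zero] at hE
      exact hE rfl
    have hEs : Eᵀ = -E := by
      have := hV.symm
      rwa [Odd.neg_one_pow hw, neg_one_smul] at this
    apply Set.eq_of_subset_of_subset (mt_sub hV hE0 K)
    intro X hX I hG hI
    have hI' : ∀ z : ℂ, z ≠ 0 → hz w π z ∈ zeros I ℂ := fun z hz0 => hI _ (hz_torus hπ h2 hz0)
    exact transfer hE0 (sim_mem hG hE hEs (fun c hc => scal_mem hπ hw.pos hI' hc) fun v =>
      hall I hG (fun T hT => hI T hT) _ (Xom_sk (skew_map hEs) v)) K hX
  · rw [not_nonempty_iff] at hn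
    ext M
    constructor
    · intro _
      exact ⟨by rw [det_isEmpty]; exact isUnit_one, 0, Subsingleton.elim _ _⟩
    · intro _ I hG _
      refine ⟨by rw [det_isEmpty]; exact isUnit_one, fun p hp => ?_⟩
      have h1 := hG.1.2 p hp
      rw [MvPolynomial.eq_C_of_isEmpty p] at h1 ⊢
      rw [pev_C] at h1 ⊢
      rw [(map_eq_zero_iff _ (algebraMap ℚ ℂ).injective).1 h1, map_zero]

end Pool.Agent.MTF.H42
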